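import Pool.Agent.H85.SF.Def
import Pool.Agent.H8.Old.RepellingRadicals

/-!
# [SF] the merged statement: special fields and radical fields (MP_821da1_nt)

`Exceptional q n g C T`: some polynomial `F ∈ ℤ[x,y]` of total degree at most `n`, irreducible over `ℚ`, of genus at most `g`, all of whose
points at infinity over number fields with a real embedding carry a zero of `q`, with coefficients of absolute value at most `H`,
`H ≥ 2`, has an integer point with `max(|x|,|y|) > (T H)^C`.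
-/

namespace Pool.Agent.H4.SFM

open MvPolynomial Pool.Agent.H85.SF

/-- some curve of degree at most `n` and genus at most `g`, all of whose real points at infinity carry a zero of `q`,
has an integer point of size larger than `(T * H)^C`, `H` a bound for its height -/
def Exceptional (q : Polynomial ℤ) (n g C T : ℕ) : Prop :=
  ∃ (F : MvPolynomial (Fin 2) ℤ) (H : ℕ) (x y : ℤ), F.totalDegree ≤ n ∧ Irreducible (map (Int.castRingHom ℚ) F) ∧
    AtInf q F ∧ GenusLE F g ∧ 2 ≤ H ∧ (∀ m, |coeff m F| ≤ (H : ℤ)) ∧ eval ![x, y] F = 0 ∧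
      ((T : ℤ) * H) ^ C < max |x| |y|

/-- `b X ^ r - a` -/
noncomputable def rad (r a b : ℕ) : Polynomial ℤ :=
  Polynomial.C (b : ℤ) * Polynomial.X ^ r - Polynomial.C (a : ℤ)

theorem aeval_rad {K : Type} [Field K] [CharZero K] (r a b : ℕ) (hb : 0 < b) (z : K) :
    Polynomial.aeval z (rad r a b) = 0 ↔ z ^ r = (((a : ℚ) / b : ℚ) : K) := by
  have hb' : (b : K) ≠ 0 := by exact_mod_cast hb.ne'
  simp only [rad, map_sub, map_mul, map_pow, Polynomial.aeval_X, Polynomial.aeval_C, sub_eq_zero]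
  push_cast
  rw [eq_div_iff hb']
  constructor
  · intro h
    rw [mul_comm]
    exact h
  · intro h
    rw [mul_comm] at h
    exact h

theorem exc_of {r n g C T a b : ℕ} (hb : 0 < b) (h : Exceptional (rad r a b) n g C T) :
    Pool.Agent.Results.MP_821da1_nt.RepellingRadicals.Exceptional r n C T ((a : ℚ) / b) := by
  obtain ⟨F, H, x, y, h1, h2, h3, -, h5, h6, h7, h8⟩ := h
  refine ⟨F, H, x, y, h1, h2, fun K _ _ hK X Y hXY => ?_, h5, h6, h7, h8⟩
  rcases h3 K hK X Y hXY with h | ⟨z, hz⟩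
  · exact Or.inl h
  · exact Or.inr ⟨z, (aeval_rad r a b hb z).1 hz⟩

/-- special fields have no exceptional point, radical fields few -/
theorem merge (hSF : Statement) :
    (∀ n : ℕ, ∃ C : ℕ, ∀ (g B : ℕ) (p : Polynomial ℤ), Special p B (300 * (n + g)) → ¬ Exceptional p n g C B) ∧
    (∀ r a κ : ℕ, Odd r → 3 ≤ r → 2 ^ r ≤ a → 2 * κ ≤ (r - 1) ^ 2 →
      Special (Polynomial.X ^ r - Polynomial.C (a : ℤ) * Polynomial.X ^ (r - 1) - 1) (2 * a) κ) ∧
    ∀ (r n : ℕ) (δ : ℝ), 3 ≤ r → 3 ≤ n → 0 < δ → ∃ C : ℕ, 1 ≤ C ∧ ∀ g : ℕ,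
      (δ < 1 - 2 / r → ∀ a b : ℕ, Nat.Coprime a b → a ≠ b → C ≤ b → |(a : ℝ) - b| ≤ (b : ℝ) ^ δ →
        ¬ Exceptional (rad r a b) n g C b) ∧
      (5 ≤ r → δ < 1 - 9 / (2 * r) →
        (∀ X b : ℕ, C ≤ X → 1 ≤ b → {a : ℕ | X ≤ a ∧ (a : ℝ) ≤ X + (X : ℝ) ^ δ ∧
          Exceptional (rad r a b) n g C X}.Subsingleton) ∧
        ∀ T b : ℕ, 1 ≤ T → 1 ≤ b →
          ({a : ℕ | 1 ≤ a ∧ a ≤ T ∧ Exceptional (rad r a b) n g C T}.ncard : ℝ) ≤ C * (T : ℝ) ^ (1 - δ)) := by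
  obtain ⟨hS1, hS2⟩ := hSF
  refine ⟨fun n => ?_, hS2, fun r n δ hr hn hδ => ?_⟩
  · obtain ⟨E, hE⟩ := hS1 n
    refine ⟨E, fun g B p hp => ?_⟩
    rintro ⟨F, H, x, y, h1, h2, h3, h4, h5, h6, h7, h8⟩
    exact absurd (hE g B H p F hp h1 h2 h3 h4 h5 h6 x y h7) (not_le.2 h8)
  · obtain ⟨C, hC, h0, h1⟩ := Pool.Agent.Results.MP_821da1_nt.RepellingRadicals.result r n hr hn δ hδ
    refine ⟨C, hC, fun g => ⟨fun hd a b hab hne hb hcl h => ?_, fun h5 hd => ?_⟩⟩
    · exact h0 hd a b hab hne hb hcl (exc_of (by omega) h)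
    · obtain ⟨-, h2, h3, -⟩ := h1 h5 hd
      refine ⟨fun X b hX hb => ?_, fun T b hT hb => ?_⟩
      · refine (h2 X b hX hb).anti fun a ha => ?_
        exact ⟨ha.1, ha.2.1, exc_of (by omega) ha.2.2⟩
      · refine le_trans ?_ (h3 T b hT hb)
        have hfin : {a : ℕ | 1 ≤ a ∧ a ≤ T ∧
            Pool.Agent.Results.MP_821da1_nt.RepellingRadicals.Exceptional r n C T ((a : ℚ) / b)}.Finite :=
          (Set.finite_Icc 1 T).subset fun a ha => ⟨ha.1, ha.2.1⟩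
        have hsub : {a : ℕ | 1 ≤ a ∧ a ≤ T ∧ Exceptional (rad r a b) n g C T} ⊆ {a : ℕ | 1 ≤ a ∧ a ≤ T ∧
            Pool.Agent.Results.MP_821da1_nt.RepellingRadicals.Exceptional r n C T ((a : ℚ) / b)} :=
          fun a ha => ⟨ha.1, ha.2.1, exc_of (by omega) ha.2.2⟩
        exact_mod_cast Set.ncard_le_ncard hsub hfin

end Pool.Agent.H4.SFM
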